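import Mathlib
import Pool.Agent.U398.MV.Stm

set_option autoImplicit false

/-!
# Project MV, package NG: pair counts up to `T` from the pair counts in blocks (helper256)
-/

namespace Pool.Agent.U256.MV.NG

open MeasureTheory Filter Topology Set Complex Pool.Agent.U398.MV

noncomputable section

section
variable {Z : Set ℂ} {x m : ℂ → ℝ} {F : ℝ → Finset ℂ} {C1 T0 : ℝ}

lemma sub_of_le (hP : Pts Z x m F C1 T0) {s t : ℝ} (hst : s ≤ t) :
    F s = (F t).filter (fun i => x i ≤ s) := by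
  ext i
  rw [Finset.mem_filter, hP.mem, hP.mem]
  constructor
  · rintro ⟨h1, h2, h3⟩; exact ⟨⟨h1, h2, h3.trans hst⟩, h3⟩
  · rintro ⟨⟨h1, h2, _⟩, h3⟩; exact ⟨h1, h2, h3⟩

lemma cnt_mono (hP : Pts Z x m F C1 T0) {s t : ℝ} (hst : s ≤ t) : cnt F m s ≤ cnt F m t := by
  unfold cnt
  rw [sub_of_le hP hst]
  exact Finset.sum_le_sum_of_subset_of_nonneg (Finset.filter_subset _ _) (fun i _ _ => hP.nonneg i)

lemma cnt_diff (hP : Pts Z x m F C1 T0) {s t : ℝ} (hst : s ≤ t) :
    cnt F m t - cnt F m s = ∑ i ∈ (F t).filter (fun i => s < x i), m i := by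
  unfold cnt
  rw [sub_of_le hP hst]
  have h := Finset.sum_filter_add_sum_filter_not (F t) (fun i => x i ≤ s) m
  have h2 : (F t).filter (fun i => ¬ x i ≤ s) = (F t).filter (fun i => s < x i) := by
    apply Finset.filter_congr
    intro i _
    exact not_le
  rw [h2] at h
  linarith

lemma C1_nonneg (hP : Pts Z x m F C1 T0) : 0 ≤ C1 := by
  have h1 := hP.short 10 (by norm_num)
  have h2 := cnt_mono hP (show (10 : ℝ) ≤ 10 + 1 by norm_num)
  have h3 : 0 < Real.log 10 := Real.log_pos (by norm_num)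
  by_contra hneg
  push Not at hneg
  have := mul_neg_of_neg_of_pos hneg h3
  linarith

lemma cnt_bound (hP : Pts Z x m F C1 T0) (k : ℕ) :
    cnt F m (10 + k) ≤ C1 + k * (C1 * Real.log (10 + k)) := by
  have hC := C1_nonneg hP
  induction k with
  | zero => simpa using hP.low
  | succ k ih =>
    have h1 := hP.short (10 + k) (by have : (0 : ℝ) ≤ k := Nat.cast_nonneg k; linarith)
    have hk : (0 : ℝ) ≤ k := Nat.cast_nonneg k
    have h2 : Real.log (10 + k) ≤ Real.log (10 + (k + 1 : ℕ)) := by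
      apply Real.log_le_log (by linarith)
      push_cast
      linarith
    have h3 : (10 : ℝ) + k + 1 = 10 + (k + 1 : ℕ) := by push_cast; ring
    rw [h3] at h1
    have h4 : C1 * Real.log (10 + k) ≤ C1 * Real.log (10 + (k + 1 : ℕ)) :=
      mul_le_mul_of_nonneg_left h2 hC
    have h5 : (k : ℝ) * (C1 * Real.log (10 + k)) ≤ k * (C1 * Real.log (10 + (k + 1 : ℕ))) :=
      mul_le_mul_of_nonneg_left h4 hk
    push_cast at *
    linarith

/-- pair count up to `X` -/
def Q (x m : ℂ → ℝ) (F : ℝ → Finset ℂ) (X h : ℝ) : ℝ :=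
  ∑ i ∈ F X, ∑ j ∈ F X, m i * m j * (if 0 < x i - x j ∧ x i - x j ≤ h then 1 else 0)

/-- pair count of a block -/
def B (x m : ℂ → ℝ) (F : ℝ → Finset ℂ) (X h : ℝ) : ℝ :=
  ∑ i ∈ F (2 * X), ∑ j ∈ F (2 * X), m i * m j *
        (if X < x i ∧ X < x j ∧ 0 < x i - x j ∧ x i - x j ≤ h then 1 else 0)

/-- pairs across -/
def E (x m : ℂ → ℝ) (F : ℝ → Finset ℂ) (X h : ℝ) : ℝ :=
  ∑ i ∈ F (2 * X), ∑ j ∈ F (2 * X), m i * m j *
        (if X < x i ∧ x j ≤ X ∧ 0 < x i - x j ∧ x i - x j ≤ h then 1 else 0)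

lemma Q_nonneg (hP : Pts Z x m F C1 T0) (X h : ℝ) : 0 ≤ Q x m F X h := by
  unfold Q
  refine Finset.sum_nonneg (fun i _ => Finset.sum_nonneg (fun j _ => ?_))
  refine mul_nonneg (mul_nonneg (hP.nonneg i) (hP.nonneg j)) ?_
  split_ifs <;> norm_num

lemma Q_le (hP : Pts Z x m F C1 T0) (X h : ℝ) : Q x m F X h ≤ cnt F m X ^ 2 := by
  unfold Q cnt
  rw [sq, Finset.sum_mul_sum]
  refine Finset.sum_le_sum (fun i _ => Finset.sum_le_sum (fun j _ => ?_))
  have h1 : 0 ≤ m i * m j := mul_nonneg (hP.nonneg i) (hP.nonneg j)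
  have h2 : (if 0 < x i - x j ∧ x i - x j ≤ h then (1 : ℝ) else 0) ≤ 1 := by split_ifs <;> norm_num
  nlinarith

lemma E_nonneg (hP : Pts Z x m F C1 T0) (X h : ℝ) : 0 ≤ E x m F X h := by
  unfold E
  refine Finset.sum_nonneg (fun i _ => Finset.sum_nonneg (fun j _ => ?_))
  refine mul_nonneg (mul_nonneg (hP.nonneg i) (hP.nonneg j)) ?_
  split_ifs <;> norm_num

lemma E_le (hP : Pts Z x m F C1 T0) (X h : ℝ) (hX : 10 ≤ X) (h1 : h ≤ 1) :
    E x m F X h ≤ C1 ^ 2 * Real.log X ^ 2 := by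
  have hC := C1_nonneg hP
  have hA : ∑ i ∈ F (2 * X), m i * (if X < x i ∧ x i ≤ X + 1 then 1 else 0) ≤
      C1 * Real.log X := by
    refine le_trans ?_ (hP.short X (by linarith))
    rw [cnt_diff hP (by linarith : X ≤ X + 1)]
    have e1 : ∀ i ∈ F (2 * X), m i * (if X < x i ∧ x i ≤ X + 1 then (1 : ℝ) else 0) =
        if X < x i ∧ x i ≤ X + 1 then m i else 0 := by
      intro i _
      split_ifs <;> simp
    rw [Finset.sum_congr rfl e1, ← Finset.sum_filter]
    apply Finset.sum_le_sum_of_subset_of_nonneg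
    · intro i hi
      rw [Finset.mem_filter, hP.mem] at hi ⊢
      exact ⟨⟨hi.1.1, hi.1.2.1, hi.2.2⟩, hi.2.1⟩
    · intro i _ _
      exact hP.nonneg i
  have hB : ∑ i ∈ F (2 * X), m i * (if X - 1 < x i ∧ x i ≤ X then 1 else 0) ≤
      C1 * Real.log X := by
    have hlog : Real.log (X - 1) ≤ Real.log X := Real.log_le_log (by linarith) (by linarith)
    have h2 := hP.short (X - 1) (by linarith)
    rw [sub_add_cancel] at h2
    refine le_trans ?_ (h2.trans (mul_le_mul_of_nonneg_left hlog hC))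
    rw [cnt_diff hP (by linarith : X - 1 ≤ X)]
    have e1 : ∀ i ∈ F (2 * X), m i * (if X - 1 < x i ∧ x i ≤ X then (1 : ℝ) else 0) =
        if X - 1 < x i ∧ x i ≤ X then m i else 0 := by
      intro i _
      split_ifs <;> simp
    rw [Finset.sum_congr rfl e1, ← Finset.sum_filter]
    apply Finset.sum_le_sum_of_subset_of_nonneg
    · intro i hi
      rw [Finset.mem_filter, hP.mem] at hi ⊢
      exact ⟨⟨hi.1.1, hi.1.2.1, hi.2.2⟩, hi.2.1⟩
    · intro i _ _
      exact hP.nonneg i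
  have hB0 : 0 ≤ ∑ i ∈ F (2 * X), m i * (if X - 1 < x i ∧ x i ≤ X then (1 : ℝ) else 0) := by
    refine Finset.sum_nonneg (fun i _ => mul_nonneg (hP.nonneg i) ?_)
    split_ifs <;> norm_num
  have hlog0 : 0 ≤ Real.log X := Real.log_nonneg (by linarith)
  calc E x m F X h ≤ (∑ i ∈ F (2 * X), m i * (if X < x i ∧ x i ≤ X + 1 then 1 else 0)) *
        ∑ j ∈ F (2 * X), m j * (if X - 1 < x j ∧ x j ≤ X then (1 : ℝ) else 0) := by
        unfold E
        rw [Finset.sum_mul_sum]
        refine Finset.sum_le_sum (fun i _ => Finset.sum_le_sum (fun j _ => ?_))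
        have h1' : 0 ≤ m i * m j := mul_nonneg (hP.nonneg i) (hP.nonneg j)
        have hre : m i * (if X < x i ∧ x i ≤ X + 1 then (1 : ℝ) else 0) *
            (m j * (if X - 1 < x j ∧ x j ≤ X then (1 : ℝ) else 0)) =
            m i * m j * ((if X < x i ∧ x i ≤ X + 1 then (1 : ℝ) else 0) *
              (if X - 1 < x j ∧ x j ≤ X then (1 : ℝ) else 0)) := by ring
        rw [hre]
        apply mul_le_mul_of_nonneg_left _ h1'
        by_cases hc : X < x i ∧ x j ≤ X ∧ 0 < x i - x j ∧ x i - x j ≤ h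
        · obtain ⟨c1, c2, c3, c4⟩ := hc
          rw [if_pos ⟨c1, c2, c3, c4⟩, if_pos ⟨c1, by linarith⟩, if_pos ⟨by linarith, c2⟩]
          norm_num
        · rw [if_neg hc]
          apply mul_nonneg <;> split_ifs <;> norm_num
    _ ≤ (C1 * Real.log X) * (C1 * Real.log X) :=
        mul_le_mul hA hB hB0 (mul_nonneg hC hlog0)
    _ = _ := by ring

lemma Q_rec (hP : Pts Z x m F C1 T0) (X h : ℝ) (hX : 0 ≤ X) :
    Q x m F (2 * X) h = Q x m F X h + B x m F X h + E x m F X h := by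
  unfold Q B E
  rw [sub_of_le hP (by linarith : X ≤ 2 * X), Finset.sum_filter]
  rw [← Finset.sum_add_distrib, ← Finset.sum_add_distrib]
  refine Finset.sum_congr rfl (fun i _ => ?_)
  by_cases hi : x i ≤ X
  · rw [if_pos hi, Finset.sum_filter, ← Finset.sum_add_distrib, ← Finset.sum_add_distrib]
    refine Finset.sum_congr rfl (fun j _ => ?_)
    have hn1 : ¬ (X < x i ∧ X < x j ∧ 0 < x i - x j ∧ x i - x j ≤ h) := fun hc => by linarith [hc.1]
    have hn2 : ¬ (X < x i ∧ x j ≤ X ∧ 0 < x i - x j ∧ x i - x j ≤ h) := fun hc => by linarith [hc.1]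
    rw [if_neg hn1, if_neg hn2]
    by_cases hj : x j ≤ X
    · rw [if_pos hj]; ring
    · rw [if_neg hj]
      push Not at hj
      have hn3 : ¬ (0 < x i - x j ∧ x i - x j ≤ h) := fun hc => by linarith [hc.1]
      rw [if_neg hn3]
      ring
  · rw [if_neg hi, zero_add, ← Finset.sum_add_distrib]
    push Not at hi
    refine Finset.sum_congr rfl (fun j _ => ?_)
    by_cases hj : x j ≤ X
    · have hn1 : ¬ (X < x i ∧ X < x j ∧ 0 < x i - x j ∧ x i - x j ≤ h) :=
        fun hc => by linarith [hc.2.1]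
      rw [if_neg hn1]
      by_cases hc : 0 < x i - x j ∧ x i - x j ≤ h
      · rw [if_pos hc, if_pos ⟨hi, hj, hc.1, hc.2⟩]; ring
      · have hn2 : ¬ (X < x i ∧ x j ≤ X ∧ 0 < x i - x j ∧ x i - x j ≤ h) :=
          fun hc' => hc hc'.2.2
        rw [if_neg hc, if_neg hn2]; ring
    · have hn2 : ¬ (X < x i ∧ x j ≤ X ∧ 0 < x i - x j ∧ x i - x j ≤ h) :=
        fun hc => hj hc.2.1
      push Not at hj
      rw [if_neg hn2]
      by_cases hc : 0 < x i - x j ∧ x i - x j ≤ h
      · rw [if_pos hc, if_pos ⟨hi, hj, hc.1, hc.2⟩]; ring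
      · have hn1 : ¬ (X < x i ∧ X < x j ∧ 0 < x i - x j ∧ x i - x j ≤ h) :=
          fun hc' => hc hc'.2.2
        rw [if_neg hc, if_neg hn1]; ring

/-- main term -/
def Mn (X h : ℝ) : ℝ := (Real.log X / (2 * Real.pi)) ^ 2 * X * h

lemma Mn_nonneg {X h : ℝ} (hX : 0 ≤ X) (hh : 0 ≤ h) : 0 ≤ Mn X h := by
  unfold Mn
  positivity

lemma Mn_le {X h : ℝ} (hX : 1 ≤ X) (hh : 0 ≤ h) (h1 : h ≤ 1) : Mn X h ≤ X * Real.log X ^ 2 := by
  unfold Mn
  have hpi := Real.pi_gt_three
  have hl : 0 ≤ Real.log X := Real.log_nonneg hX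
  have h2 : (Real.log X / (2 * Real.pi)) ^ 2 ≤ Real.log X ^ 2 := by
    apply pow_le_pow_left₀ (by positivity)
    exact div_le_self hl (by linarith)
  have h3 : (Real.log X / (2 * Real.pi)) ^ 2 * X ≤ Real.log X ^ 2 * X :=
    mul_le_mul_of_nonneg_right h2 (by linarith)
  have h4 : 0 ≤ (Real.log X / (2 * Real.pi)) ^ 2 * X := by positivity
  calc (Real.log X / (2 * Real.pi)) ^ 2 * X * h ≤ (Real.log X / (2 * Real.pi)) ^ 2 * X * 1 :=
        mul_le_mul_of_nonneg_left h1 h4
    _ ≤ Real.log X ^ 2 * X := by rw [mul_one]; exact h3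
    _ = _ := by ring

lemma Mn_diff {Y h : ℝ} (hY : 10 ≤ Y) (hh : 0 ≤ h) (h1 : h ≤ 1) :
    0 ≤ Mn (2 * Y) h - 2 * Mn Y h ∧ Mn (2 * Y) h - 2 * Mn Y h ≤ Y * Real.log Y := by
  have hpi := Real.pi_gt_three
  have hl : 1 ≤ Real.log Y := by
    rw [Real.le_log_iff_exp_le (by linarith)]
    have := Real.exp_one_lt_d9
    linarith
  have hl2 : 0 < Real.log 2 := Real.log_pos (by norm_num)
  have hl2' : Real.log 2 < 0.7 := by have := Real.log_two_lt_d9; linarith
  have hlog : Real.log (2 * Y) = Real.log 2 + Real.log Y :=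
    Real.log_mul (by norm_num) (by linarith)
  have e : Mn (2 * Y) h - 2 * Mn Y h =
      (2 * Real.log 2 * Real.log Y + Real.log 2 ^ 2) * (2 * Y * h / (2 * Real.pi) ^ 2) := by
    unfold Mn
    rw [hlog]
    field_simp
    ring
  rw [e]
  have h3 : 0 ≤ 2 * Y * h / (2 * Real.pi) ^ 2 := by positivity
  have h4 : 2 * Y * h / (2 * Real.pi) ^ 2 ≤ Y / 18 := by
    rw [div_le_div_iff₀ (by positivity) (by norm_num)]
    have h5 : (36 : ℝ) ≤ (2 * Real.pi) ^ 2 := by nlinarith
    have h6 : 2 * Y * h ≤ 2 * Y := by nlinarith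
    nlinarith
  have h5 : 0 ≤ 2 * Real.log 2 * Real.log Y + Real.log 2 ^ 2 := by positivity
  have h6 : 2 * Real.log 2 * Real.log Y + Real.log 2 ^ 2 ≤ 18 * Real.log Y := by nlinarith
  refine ⟨mul_nonneg h5 h3, ?_⟩
  calc (2 * Real.log 2 * Real.log Y + Real.log 2 ^ 2) * (2 * Y * h / (2 * Real.pi) ^ 2)
      ≤ (18 * Real.log Y) * (Y / 18) := mul_le_mul h6 h4 h3 (by linarith)
    _ = _ := by ring

end

theorem t_NG (hNB : S_NB) : S_NG := by
  intro C1 T0
  obtain ⟨C2, T2, hC2, hT2, hB⟩ := hNB C1 T0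
  set k : ℕ := ⌈|2 * T2|⌉₊ with hk
  set K1 : ℝ := (C1 + k * (C1 * Real.log (10 + k))) ^ 2 with hK1
  set K2 : ℝ := |2 * T2| * Real.log (2 * T2) ^ 2 with hK2
  set C3 : ℝ := K1 + K2 + C2 + C1 ^ 2 + 1 with hC3
  have hK1n : 0 ≤ K1 := by positivity
  have hK2n : 0 ≤ K2 := by positivity
  have hC3p : 0 < C3 := by positivity
  refine ⟨2 * Real.pi * C3, T2, by positivity, hT2, ?_⟩
  intro Z x m F hP
  have hT0 := hP.hT0
  have hT2' : 10 ≤ T2 := hT0.trans hT2
  have hC1 := C1_nonneg hP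
  -- the claim along dyadic steps
  have claim : ∀ n : ℕ, ∀ X : ℝ, T2 ≤ X → X < T2 * 2 ^ (n + 1) → ∀ h : ℝ, 0 < h → h ≤ 1 →
      |Q x m F X h - Mn X h| ≤ C3 * (X * Real.log X) := by
    intro n
    induction n with
    | zero =>
      intro X hX1 hX2 h hh h1
      have hX10 : 10 ≤ X := hT2'.trans hX1
      have hX2' : X ≤ 2 * T2 := by
        have : T2 * 2 ^ (0 + 1) = 2 * T2 := by ring
        linarith
      have hkX : X ≤ 10 + k := by
        have h1 : |2 * T2| ≤ k := Nat.le_ceil _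
        have h2 : 2 * T2 ≤ |2 * T2| := le_abs_self _
        linarith
      have hq1 : Q x m F X h ≤ K1 := by
        refine (Q_le hP X h).trans ?_
        have h3 : 0 ≤ cnt F m X := by
          unfold cnt
          exact Finset.sum_nonneg (fun i _ => hP.nonneg i)
        have h4 : cnt F m X ≤ C1 + k * (C1 * Real.log (10 + k)) :=
          (cnt_mono hP hkX).trans (cnt_bound hP k)
        exact pow_le_pow_left₀ h3 h4 2
      have hq0 := Q_nonneg hP X h
      have hm0 : 0 ≤ Mn X h := Mn_nonneg (by linarith) hh.le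
      have hm1 : Mn X h ≤ K2 := by
        refine (Mn_le (by linarith) hh.le h1).trans ?_
        have h2 : 2 * T2 ≤ |2 * T2| := le_abs_self _
        have h3 : Real.log X ≤ Real.log (2 * T2) := Real.log_le_log (by linarith) hX2'
        have h4 : 0 ≤ Real.log X := Real.log_nonneg (by linarith)
        exact mul_le_mul (hX2'.trans h2) (pow_le_pow_left₀ h4 h3 2) (by positivity) (abs_nonneg _)
      have hl : 1 ≤ Real.log X := by
        rw [Real.le_log_iff_exp_le (by linarith)]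
        have := Real.exp_one_lt_d9
        linarith
      have hXl : 1 ≤ X * Real.log X := by nlinarith
      have h5 : |Q x m F X h - Mn X h| ≤ K1 + K2 := by
        rw [abs_le]; constructor <;> linarith
      have h6 : K1 + K2 ≤ C3 := by
        have : 0 ≤ C1 ^ 2 := sq_nonneg _
        linarith
      calc |Q x m F X h - Mn X h| ≤ C3 := h5.trans h6
        _ = C3 * 1 := (mul_one _).symm
        _ ≤ C3 * (X * Real.log X) := mul_le_mul_of_nonneg_left hXl hC3p.le
    | succ n ih =>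
      intro X hX1 hX2 h hh h1
      by_cases hc : X < T2 * 2 ^ (n + 1)
      · exact ih X hX1 hc h hh h1
      · push Not at hc
        obtain ⟨Y, hY⟩ : ∃ Y : ℝ, X = 2 * Y := ⟨X / 2, by ring⟩
        subst hY
        have hp : (1 : ℝ) ≤ 2 ^ n := one_le_pow₀ (by norm_num)
        have hY1 : T2 ≤ Y := by
          have h3 : T2 * 2 ^ (n + 1) = 2 * (T2 * 2 ^ n) := by ring
          have h4 : T2 ≤ T2 * 2 ^ n := by nlinarith
          linarith
        have hY2 : Y < T2 * 2 ^ (n + 1) := by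
          have h3 : T2 * 2 ^ (n + 1 + 1) = 2 * (T2 * 2 ^ (n + 1)) := by ring
          linarith
        have hY10 : 10 ≤ Y := hT2'.trans hY1
        have i1 := ih Y hY1 hY2 h hh h1
        have i2 : |B x m F Y h - Mn Y h| ≤ C2 * (Y * Real.log Y) := hB Z x m F hP Y hY1 h hh h1
        have i3 := E_nonneg hP Y h
        have i4 := E_le hP Y h hY10 h1
        have i5 := Q_rec hP Y h (by linarith)
        have i6 := Mn_diff hY10 hh.le h1
        have hl : 1 ≤ Real.log Y := by
          rw [Real.le_log_iff_exp_le (by linarith)]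
          have := Real.exp_one_lt_d9
          linarith
        have hlY : Real.log Y ≤ Y := (Real.log_le_sub_one_of_pos (by linarith)).trans (by linarith)
        have i7 : C1 ^ 2 * Real.log Y ^ 2 ≤ C1 ^ 2 * (Y * Real.log Y) := by
          apply mul_le_mul_of_nonneg_left _ (sq_nonneg _)
          nlinarith
        have hlog2 : Real.log Y ≤ Real.log (2 * Y) := Real.log_le_log (by linarith) (by linarith)
        set W := Y * Real.log Y with hW
        have hW0 : 0 ≤ W := by positivity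
        have hW2 : C3 * (2 * W) ≤ C3 * (2 * Y * Real.log (2 * Y)) := by
          apply mul_le_mul_of_nonneg_left _ hC3p.le
          rw [hW]
          nlinarith
        have hsum : C2 * W + C1 ^ 2 * W + W ≤ C3 * W := by
          have : C3 * W = (K1 + K2) * W + (C2 * W + C1 ^ 2 * W + W) := by rw [hC3]; ring
          rw [this]
          have : 0 ≤ (K1 + K2) * W := by positivity
          linarith
        rw [i5]
        rw [abs_le] at i1 i2 ⊢
        constructor
        · linarith [i1.1, i2.1, i6.1, i6.2]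
        · linarith [i1.2, i2.2, i6.1, i6.2]
  intro T hT a ha ha2
  have hT10 : 10 ≤ T := hT2'.trans hT
  have hl : 1 ≤ Real.log T := by
    rw [Real.le_log_iff_exp_le (by linarith)]
    have := Real.exp_one_lt_d9
    linarith
  have hpi := Real.pi_pos
  set h : ℝ := 2 * Real.pi * a / Real.log T with hh
  have hpos : 0 < h := by positivity
  have h1 : h ≤ 1 := by
    rw [hh, div_le_one (by linarith)]
    rw [le_div_iff₀ (by positivity)] at ha2
    linarith
  obtain ⟨n, hn⟩ : ∃ n : ℕ, T < T2 * 2 ^ (n + 1) := by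
    obtain ⟨n, hn⟩ := pow_unbounded_of_one_lt (T / T2) (by norm_num : (1 : ℝ) < 2)
    refine ⟨n, ?_⟩
    rw [div_lt_iff₀ (by linarith)] at hn
    have : (2 : ℝ) ^ n * T2 ≤ T2 * 2 ^ (n + 1) := by
      have hp : (0 : ℝ) < 2 ^ n := by positivity
      have : T2 * 2 ^ (n + 1) = 2 * (2 ^ n * T2) := by ring
      rw [this]
      nlinarith
    linarith
  have main := claim n T hT hn h hpos h1
  have hden : 0 < T * Real.log T / (2 * Real.pi) := by positivity
  have hM : Mn T h = a * (T * Real.log T / (2 * Real.pi)) := by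
    unfold Mn
    rw [hh]
    field_simp
  have hQ : (∑ i ∈ F T, ∑ j ∈ F T, m i * m j *
        (if 0 < x i - x j ∧ x i - x j ≤ h then (1 : ℝ) else 0)) = Q x m F T h := rfl
  rw [hQ]
  have e : Q x m F T h / (T * Real.log T / (2 * Real.pi)) - a =
      (Q x m F T h - Mn T h) / (T * Real.log T / (2 * Real.pi)) := by
    rw [hM]
    field_simp
  rw [e, abs_div, abs_of_pos hden, div_le_iff₀ hden]
  calc |Q x m F T h - Mn T h| ≤ C3 * (T * Real.log T) := main
    _ = 2 * Real.pi * C3 * (T * Real.log T / (2 * Real.pi)) := by field_simp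

end

end Pool.Agent.U256.MV.NG
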