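import Mathlib
import Pool.Agent.U398.MV.Stm

set_option autoImplicit false

/-!
# Project MV, package OUT: the edges (helper256)
-/

namespace Pool.Agent.U256.MV.OUT

open MeasureTheory Filter Topology Set Complex Pool.Agent.U398.MV

noncomputable section

lemma gInt (c t : ℝ) (hc : 0 < c) :
    Integrable (fun y : ℝ => Real.exp (-c * (y - t) ^ 2)) := by
  have h := (integrable_exp_neg_mul_sq hc).comp_sub_right t
  exact h

lemma gVal (c t : ℝ) : ∫ y : ℝ, Real.exp (-c * (y - t) ^ 2) = Real.sqrt (Real.pi / c) := by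
  have h := integral_sub_right_eq_self (μ := volume) (fun y : ℝ => Real.exp (-c * y ^ 2)) t
  rw [h]
  exact integral_gaussian c

/-- one point -/
lemma one_point (x t : ℝ) :
    2 * Real.exp (-(1 / 4) * (x - t) ^ 2) ≤
      ∫ y : ℝ, (if |x - y| ≤ 1 then (1 : ℝ) else 0) *
        (Real.exp (1 / 4) * Real.exp (-(1 / 8) * (y - t) ^ 2)) := by
  have hset : {y : ℝ | |x - y| ≤ 1} = Icc (x - 1) (x + 1) := by
    ext y
    simp only [Set.mem_ofPred_eq, Set.mem_Icc, abs_le]
    constructor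
    · rintro ⟨h1, h2⟩; constructor <;> linarith
    · rintro ⟨h1, h2⟩; constructor <;> linarith
  have hfun : (fun y : ℝ => (if |x - y| ≤ 1 then (1 : ℝ) else 0) *
        (Real.exp (1 / 4) * Real.exp (-(1 / 8) * (y - t) ^ 2))) =
      (Icc (x - 1) (x + 1)).indicator
        (fun y => Real.exp (1 / 4) * Real.exp (-(1 / 8) * (y - t) ^ 2)) := by
    funext y
    by_cases hy : |x - y| ≤ 1
    · have : y ∈ Icc (x - 1) (x + 1) := by rw [← hset]; exact hy
      rw [Set.indicator_of_mem this, if_pos hy, one_mul]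
    · have : y ∉ Icc (x - 1) (x + 1) := by rw [← hset]; exact hy
      rw [Set.indicator_of_notMem this, if_neg hy, zero_mul]
  rw [hfun, integral_indicator measurableSet_Icc]
  have hc : ∫ _y in Icc (x - 1) (x + 1), Real.exp (-(1 / 4) * (x - t) ^ 2) =
      2 * Real.exp (-(1 / 4) * (x - t) ^ 2) := by
    rw [setIntegral_const]
    simp only [Measure.real, Real.volume_Icc, smul_eq_mul]
    rw [ENNReal.toReal_ofReal (by linarith)]
    ring
  rw [← hc]
  apply setIntegral_mono_on
  · exact integrableOn_const (by simp)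
  · exact (((gInt (1 / 8) t (by norm_num)).const_mul (Real.exp (1 / 4)))).integrableOn
  · exact measurableSet_Icc
  · intro y hy
    rw [← Real.exp_add]
    apply Real.exp_le_exp.mpr
    have h1 : |x - y| ≤ 1 := by
      have : y ∈ {y : ℝ | |x - y| ≤ 1} := by rw [hset]; exact hy
      exact this
    have h2 : (x - y) ^ 2 ≤ 1 := by
      have := sq_le_sq' (by linarith [abs_le.mp h1]) (abs_le.mp h1).2
      simpa using this
    nlinarith [sq_nonneg (x - t + (x - y)), sq_nonneg (x - y - (x - t))]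

lemma sum_points {ι : Type} (S : Finset ι) (w x : ι → ℝ) (M t : ℝ) (hw : ∀ i ∈ S, 0 ≤ w i)
    (hM : ∀ y : ℝ, ∑ i ∈ S, w i * (if |x i - y| ≤ 1 then (1 : ℝ) else 0) ≤ M) :
    ∑ i ∈ S, w i * Real.exp (-(1 / 4) * (x i - t) ^ 2) ≤
      M * (Real.exp (1 / 4) * Real.sqrt (Real.pi / (1 / 8)) / 2) := by
  have hint : ∀ i, Integrable (fun y : ℝ => (if |x i - y| ≤ 1 then (1 : ℝ) else 0) *
        (Real.exp (1 / 4) * Real.exp (-(1 / 8) * (y - t) ^ 2))) := by
    intro i
    have h0 := ((gInt (1 / 8) t (by norm_num)).const_mul (Real.exp (1 / 4)))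
    refine h0.mono' ?_ ?_
    · refine AEStronglyMeasurable.mul ?_ h0.aestronglyMeasurable
      refine Measurable.aestronglyMeasurable ?_
      refine Measurable.ite ?_ measurable_const measurable_const
      exact measurableSet_le (by fun_prop) measurable_const
    · filter_upwards with y
      rw [Real.norm_eq_abs, abs_mul]
      have : |if |x i - y| ≤ 1 then (1 : ℝ) else 0| ≤ 1 := by split_ifs <;> simp
      have h3 : 0 ≤ Real.exp (1 / 4) * Real.exp (-(1 / 8) * (y - t) ^ 2) := by positivity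
      rw [abs_of_nonneg h3]
      nlinarith
  have h1 : ∀ i ∈ S, w i * (2 * Real.exp (-(1 / 4) * (x i - t) ^ 2)) ≤
      ∫ y : ℝ, w i * ((if |x i - y| ≤ 1 then (1 : ℝ) else 0) *
        (Real.exp (1 / 4) * Real.exp (-(1 / 8) * (y - t) ^ 2))) := by
    intro i hi
    rw [integral_const_mul]
    exact mul_le_mul_of_nonneg_left (one_point _ _) (hw i hi)
  have h2 := Finset.sum_le_sum h1
  rw [← integral_finsetSum] at h2
  · have h3 : ∫ y : ℝ, ∑ i ∈ S, w i * ((if |x i - y| ≤ 1 then (1 : ℝ) else 0) *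
        (Real.exp (1 / 4) * Real.exp (-(1 / 8) * (y - t) ^ 2))) ≤
        ∫ y : ℝ, M * (Real.exp (1 / 4) * Real.exp (-(1 / 8) * (y - t) ^ 2)) := by
      apply integral_mono
      · exact integrable_finsetSum _ (fun i _ => (hint i).const_mul (w i))
      · exact ((gInt (1 / 8) t (by norm_num)).const_mul (Real.exp (1 / 4))).const_mul M
      · intro y
        have := hM y
        have h3 : 0 ≤ Real.exp (1 / 4) * Real.exp (-(1 / 8) * (y - t) ^ 2) := by positivity
        calc ∑ i ∈ S, w i * ((if |x i - y| ≤ 1 then (1 : ℝ) else 0) *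
            (Real.exp (1 / 4) * Real.exp (-(1 / 8) * (y - t) ^ 2)))
            = (∑ i ∈ S, w i * (if |x i - y| ≤ 1 then (1 : ℝ) else 0)) *
              (Real.exp (1 / 4) * Real.exp (-(1 / 8) * (y - t) ^ 2)) := by
              rw [Finset.sum_mul]
              exact Finset.sum_congr rfl (fun i _ => by ring)
          _ ≤ M * (Real.exp (1 / 4) * Real.exp (-(1 / 8) * (y - t) ^ 2)) :=
              mul_le_mul_of_nonneg_right this h3
    rw [integral_const_mul, integral_const_mul, gVal] at h3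
    have h4 : ∑ i ∈ S, w i * (2 * Real.exp (-(1 / 4) * (x i - t) ^ 2)) =
        2 * ∑ i ∈ S, w i * Real.exp (-(1 / 4) * (x i - t) ^ 2) := by
      rw [Finset.mul_sum]
      exact Finset.sum_congr rfl (fun i _ => by ring)
    rw [h4] at h2
    linarith
  · intro i _
    exact (hint i).const_mul (w i)

/-- the pointwise bound -/
lemma point_bound {ι : Type} (S : Finset ι) (w x : ι → ℝ) (lam a b L C1 : ℝ) (hab : a ≤ b)
    (hL : 1 ≤ L) (hl0 : 0 ≤ lam) (hl : lam ≤ L) (hC1 : 1 ≤ C1)
    (hw : ∀ i ∈ S, 0 ≤ w i ∧ a ≤ x i ∧ x i ≤ b)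
    (hM : ∀ y : ℝ, ∑ i ∈ S, w i * (if |x i - y| ≤ 1 then (1 : ℝ) else 0) ≤ C1 * L)
    (u t d : ℝ) (hd0 : 0 ≤ d) (hd : ∀ y ∈ Icc a b, d ≤ |y - t|) :
    ‖Vf S w x lam a b u t‖ ≤ (Real.exp (1 / 4) * Real.sqrt (Real.pi / (1 / 8)) / 2 +
      Real.sqrt (Real.pi / (1 / 4))) * (C1 * L) * Real.exp (-(1 / 4) * d ^ 2) := by
  have key : ∀ y ∈ Icc a b, Real.exp (-(y - t) ^ 2 / 2) ≤
      Real.exp (-(1 / 4) * d ^ 2) * Real.exp (-(1 / 4) * (y - t) ^ 2) := by
    intro y hy
    rw [← Real.exp_add]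
    apply Real.exp_le_exp.mpr
    have h1 := hd y hy
    have h2 : d ^ 2 ≤ (y - t) ^ 2 := by
      rw [← sq_abs (y - t)]
      exact pow_le_pow_left₀ hd0 h1 2
    nlinarith
  have nrm : ∀ y : ℝ, ‖cexp (I * u * y) * cexp (-((y : ℂ) - t) ^ 2 / 2)‖ =
      Real.exp (-(y - t) ^ 2 / 2) := by
    intro y
    rw [norm_mul, Complex.norm_exp, Complex.norm_exp]
    have h1 : (I * (u : ℂ) * (y : ℂ)).re = 0 := by simp
    have h2 : (-((y : ℂ) - t) ^ 2 / 2).re = -(y - t) ^ 2 / 2 := by
      have : (-((y : ℂ) - t) ^ 2 / 2) = ((-(y - t) ^ 2 / 2 : ℝ) : ℂ) := by push_cast; ring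
      rw [this, Complex.ofReal_re]
    rw [h1, h2, Real.exp_zero, one_mul]
  have hE : 0 ≤ Real.exp (-(1 / 4) * d ^ 2) := (Real.exp_pos _).le
  -- the points
  have hP : ‖∑ i ∈ S, (w i : ℂ) * (cexp (I * u * x i) * cexp (-((x i : ℂ) - t) ^ 2 / 2))‖ ≤
      C1 * L * (Real.exp (1 / 4) * Real.sqrt (Real.pi / (1 / 8)) / 2) *
        Real.exp (-(1 / 4) * d ^ 2) := by
    calc ‖∑ i ∈ S, (w i : ℂ) * (cexp (I * u * x i) * cexp (-((x i : ℂ) - t) ^ 2 / 2))‖
        ≤ ∑ i ∈ S, ‖(w i : ℂ) * (cexp (I * u * x i) * cexp (-((x i : ℂ) - t) ^ 2 / 2))‖ :=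
          norm_sum_le _ _
      _ ≤ ∑ i ∈ S, Real.exp (-(1 / 4) * d ^ 2) * (w i * Real.exp (-(1 / 4) * (x i - t) ^ 2)) := by
          apply Finset.sum_le_sum
          intro i hi
          rw [norm_mul, nrm, Complex.norm_real, Real.norm_eq_abs, abs_of_nonneg (hw i hi).1]
          have := mul_le_mul_of_nonneg_left (key (x i) ⟨(hw i hi).2.1, (hw i hi).2.2⟩) (hw i hi).1
          linarith
      _ = Real.exp (-(1 / 4) * d ^ 2) * ∑ i ∈ S, w i * Real.exp (-(1 / 4) * (x i - t) ^ 2) := by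
          rw [Finset.mul_sum]
      _ ≤ Real.exp (-(1 / 4) * d ^ 2) *
          (C1 * L * (Real.exp (1 / 4) * Real.sqrt (Real.pi / (1 / 8)) / 2)) :=
          mul_le_mul_of_nonneg_left
            (sum_points S w x (C1 * L) t (fun i hi => (hw i hi).1) hM) hE
      _ = _ := by ring
  -- the density
  have hD : ‖(lam : ℂ) * ∫ y in a..b, cexp (I * u * y) * cexp (-((y : ℂ) - t) ^ 2 / 2)‖ ≤
      C1 * L * Real.sqrt (Real.pi / (1 / 4)) * Real.exp (-(1 / 4) * d ^ 2) := by
    rw [norm_mul, Complex.norm_real, Real.norm_eq_abs, abs_of_nonneg hl0]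
    have h1 : ‖∫ y in a..b, cexp (I * u * y) * cexp (-((y : ℂ) - t) ^ 2 / 2)‖ ≤
        Real.exp (-(1 / 4) * d ^ 2) * Real.sqrt (Real.pi / (1 / 4)) := by
      calc ‖∫ y in a..b, cexp (I * u * y) * cexp (-((y : ℂ) - t) ^ 2 / 2)‖
          ≤ ∫ y in a..b, ‖cexp (I * u * y) * cexp (-((y : ℂ) - t) ^ 2 / 2)‖ :=
            intervalIntegral.norm_integral_le_integral_norm hab
        _ = ∫ y in a..b, Real.exp (-(y - t) ^ 2 / 2) := by simp_rw [nrm]
        _ ≤ ∫ y in a..b, Real.exp (-(1 / 4) * d ^ 2) * Real.exp (-(1 / 4) * (y - t) ^ 2) := by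
            apply intervalIntegral.integral_mono_on hab
            · exact (by fun_prop : Continuous fun y : ℝ => Real.exp (-(y - t) ^ 2 / 2)).intervalIntegrable _ _
            · exact (by fun_prop : Continuous fun y : ℝ => Real.exp (-(1 / 4) * d ^ 2) * Real.exp (-(1 / 4) * (y - t) ^ 2)).intervalIntegrable _ _
            · exact key
        _ = Real.exp (-(1 / 4) * d ^ 2) * ∫ y in a..b, Real.exp (-(1 / 4) * (y - t) ^ 2) := by
            rw [intervalIntegral.integral_const_mul]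
        _ ≤ Real.exp (-(1 / 4) * d ^ 2) * Real.sqrt (Real.pi / (1 / 4)) := by
            apply mul_le_mul_of_nonneg_left _ hE
            rw [← gVal (1 / 4) t, intervalIntegral.integral_of_le hab]
            exact setIntegral_le_integral (gInt (1 / 4) t (by norm_num))
              (Filter.Eventually.of_forall (fun y => (Real.exp_pos _).le))
    have h2 : lam ≤ C1 * L := by nlinarith
    have h3 : 0 ≤ Real.exp (-(1 / 4) * d ^ 2) * Real.sqrt (Real.pi / (1 / 4)) := by positivity
    calc lam * ‖∫ y in a..b, cexp (I * u * y) * cexp (-((y : ℂ) - t) ^ 2 / 2)‖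
        ≤ lam * (Real.exp (-(1 / 4) * d ^ 2) * Real.sqrt (Real.pi / (1 / 4))) :=
          mul_le_mul_of_nonneg_left h1 hl0
      _ ≤ C1 * L * (Real.exp (-(1 / 4) * d ^ 2) * Real.sqrt (Real.pi / (1 / 4))) :=
          mul_le_mul_of_nonneg_right h2 h3
      _ = _ := by ring
  unfold Vf
  calc ‖(∑ i ∈ S, (w i : ℂ) * (cexp (I * u * x i) * cexp (-((x i : ℂ) - t) ^ 2 / 2))) -
      (lam : ℂ) * ∫ y in a..b, cexp (I * u * y) * cexp (-((y : ℂ) - t) ^ 2 / 2)‖
      ≤ _ := norm_sub_le _ _
    _ ≤ _ := add_le_add hP hD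
    _ = _ := by ring

/-- the dominating function -/
def H (T L t : ℝ) : ℝ :=
  (Icc (T - 1) (T + L)).indicator (fun _ => (1 : ℝ)) t +
    (Icc (2 * T - L) (2 * T + 1)).indicator (fun _ => (1 : ℝ)) t +
    Real.exp (-(1 / 2) * (t - (T - 1)) ^ 2) + Real.exp (-(1 / 2) * (t - (2 * T + 1)) ^ 2)

lemma H_int (T L : ℝ) : Integrable (H T L) := by
  unfold H
  refine ((Integrable.add ?_ ?_).add (gInt (1 / 2) _ (by norm_num))).add
    (gInt (1 / 2) _ (by norm_num))
  · exact (integrable_indicator_iff measurableSet_Icc).mpr (integrableOn_const (by simp))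
  · exact (integrable_indicator_iff measurableSet_Icc).mpr (integrableOn_const (by simp))

lemma H_val (T L : ℝ) (hL : 1 ≤ L) :
    ∫ t, H T L t = 2 * (L + 1) + 2 * Real.sqrt (Real.pi / (1 / 2)) := by
  unfold H
  have i1 : Integrable (fun t => (Icc (T - 1) (T + L)).indicator (fun _ => (1 : ℝ)) t) :=
    (integrable_indicator_iff measurableSet_Icc).mpr (integrableOn_const (by simp))
  have i2 : Integrable (fun t => (Icc (2 * T - L) (2 * T + 1)).indicator (fun _ => (1 : ℝ)) t) :=
    (integrable_indicator_iff measurableSet_Icc).mpr (integrableOn_const (by simp))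
  have i3 := gInt (1 / 2) (T - 1) (by norm_num)
  have i4 := gInt (1 / 2) (2 * T + 1) (by norm_num)
  have e1 : ∫ t, (Icc (T - 1) (T + L)).indicator (fun _ => (1 : ℝ)) t = L + 1 := by
    rw [integral_indicator measurableSet_Icc, setIntegral_const]
    simp only [Measure.real, Real.volume_Icc, smul_eq_mul, mul_one]
    rw [ENNReal.toReal_ofReal (by linarith)]
    ring
  have e2 : ∫ t, (Icc (2 * T - L) (2 * T + 1)).indicator (fun _ => (1 : ℝ)) t = L + 1 := by
    rw [integral_indicator measurableSet_Icc, setIntegral_const]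
    simp only [Measure.real, Real.volume_Icc, smul_eq_mul, mul_one]
    rw [ENNReal.toReal_ofReal (by linarith)]
    ring
  have i12 : Integrable (fun t => (Icc (T - 1) (T + L)).indicator (fun _ => (1 : ℝ)) t +
      (Icc (2 * T - L) (2 * T + 1)).indicator (fun _ => (1 : ℝ)) t) := i1.add i2
  have i123 : Integrable (fun t => (Icc (T - 1) (T + L)).indicator (fun _ => (1 : ℝ)) t +
      (Icc (2 * T - L) (2 * T + 1)).indicator (fun _ => (1 : ℝ)) t +
      Real.exp (-(1 / 2) * (t - (T - 1)) ^ 2)) := i12.add i3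
  rw [integral_add i123 i4, integral_add i12 i3, integral_add i1 i2,
    e1, e2, gVal, gVal]
  ring

theorem t_OUT : S_OUT := by
  set K : ℝ := Real.exp (1 / 4) * Real.sqrt (Real.pi / (1 / 8)) / 2 +
      Real.sqrt (Real.pi / (1 / 4)) with hK
  have hK0 : 0 < K := by
    have : 0 < Real.sqrt (Real.pi / (1 / 4)) := Real.sqrt_pos.mpr (by positivity)
    have h2 : 0 ≤ Real.exp (1 / 4) * Real.sqrt (Real.pi / (1 / 8)) / 2 := by positivity
    linarith
  refine ⟨K ^ 2 * (4 + 2 * Real.sqrt (Real.pi / (1 / 2))), by positivity, ?_⟩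
  intro ι S w x lam a b T L C1 hL hT haT haT1 hbT hbT1 hl0 hl hC1 hw hM u
  have hab : a ≤ b := by linarith
  have hM' : ∀ y : ℝ, ∑ i ∈ S, w i * (if |x i - y| ≤ 1 then (1 : ℝ) else 0) ≤ C1 * L := hM
  have hLpos : 0 < L := by linarith
  -- pointwise bound on the complement
  have hpt : ∀ t ∈ (Icc (T + L) (2 * T - L))ᶜ,
      ‖Vf S w x lam a b u t‖ ^ 2 ≤ (K * (C1 * L)) ^ 2 * H T L t := by
    intro t ht
    have hgen : ∀ d : ℝ, 0 ≤ d → (∀ y ∈ Icc a b, d ≤ |y - t|) →
        ‖Vf S w x lam a b u t‖ ^ 2 ≤ (K * (C1 * L)) ^ 2 * Real.exp (-(1 / 2) * d ^ 2) := by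
      intro d hd0 hd
      have h1 := point_bound S w x lam a b L C1 hab hL hl0 hl hC1 hw hM' u t d hd0 hd
      rw [← hK] at h1
      have h2 := pow_le_pow_left₀ (norm_nonneg _) h1 2
      refine h2.trans (le_of_eq ?_)
      rw [mul_pow, ← Real.exp_nat_mul]
      congr 2
      push_cast
      ring
    have hKK : 0 ≤ (K * (C1 * L)) ^ 2 := by positivity
    have hone : ‖Vf S w x lam a b u t‖ ^ 2 ≤ (K * (C1 * L)) ^ 2 * 1 := by
      have := hgen 0 le_rfl (fun y _ => abs_nonneg _)
      simpa using this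
    have e3 : 0 ≤ Real.exp (-(1 / 2) * (t - (T - 1)) ^ 2) := (Real.exp_pos _).le
    have e4 : 0 ≤ Real.exp (-(1 / 2) * (t - (2 * T + 1)) ^ 2) := (Real.exp_pos _).le
    have e1 : 0 ≤ (Icc (T - 1) (T + L)).indicator (fun _ => (1 : ℝ)) t :=
      Set.indicator_nonneg (fun _ _ => zero_le_one) _
    have e2 : 0 ≤ (Icc (2 * T - L) (2 * T + 1)).indicator (fun _ => (1 : ℝ)) t :=
      Set.indicator_nonneg (fun _ _ => zero_le_one) _
    by_cases c1 : t < T - 1
    · have h := hgen (T - 1 - t) (by linarith) (fun y hy => by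
        have := hy.1
        rw [abs_of_nonneg (by linarith)]
        linarith)
      refine h.trans (mul_le_mul_of_nonneg_left ?_ hKK)
      unfold H
      have : Real.exp (-(1 / 2) * (T - 1 - t) ^ 2) = Real.exp (-(1 / 2) * (t - (T - 1)) ^ 2) := by
        congr 1; ring
      rw [this]
      linarith
    · by_cases c2 : 2 * T + 1 < t
      · have h := hgen (t - (2 * T + 1)) (by linarith) (fun y hy => by
          have := hy.2
          rw [abs_of_nonpos (by linarith)]
          linarith)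
        refine h.trans (mul_le_mul_of_nonneg_left ?_ hKK)
        unfold H
        linarith
      · refine hone.trans (mul_le_mul_of_nonneg_left ?_ hKK)
        push Not at c1 c2
        have : t ∈ Icc (T - 1) (T + L) ∨ t ∈ Icc (2 * T - L) (2 * T + 1) := by
          rw [Set.mem_compl_iff, Set.mem_Icc, not_and_or] at ht
          rcases ht with ht | ht
          · left; push Not at ht; exact ⟨c1, ht.le⟩
          · right; push Not at ht; exact ⟨ht.le, c2⟩
        unfold H
        rcases this with h | h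
        · rw [Set.indicator_of_mem h] at *
          linarith
        · rw [Set.indicator_of_mem h] at *
          linarith
  have hHint : Integrable (fun t => (K * (C1 * L)) ^ 2 * H T L t) := (H_int T L).const_mul _
  have hHnn : ∀ t, 0 ≤ H T L t := by
    intro t
    unfold H
    have e3 : 0 ≤ Real.exp (-(1 / 2) * (t - (T - 1)) ^ 2) := (Real.exp_pos _).le
    have e4 : 0 ≤ Real.exp (-(1 / 2) * (t - (2 * T + 1)) ^ 2) := (Real.exp_pos _).le
    have e1 : 0 ≤ (Icc (T - 1) (T + L)).indicator (fun _ => (1 : ℝ)) t :=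
      Set.indicator_nonneg (fun _ _ => zero_le_one) _
    have e2 : 0 ≤ (Icc (2 * T - L) (2 * T + 1)).indicator (fun _ => (1 : ℝ)) t :=
      Set.indicator_nonneg (fun _ _ => zero_le_one) _
    linarith
  calc ∫ t in (Icc (T + L) (2 * T - L))ᶜ, ‖Vf S w x lam a b u t‖ ^ 2
      ≤ ∫ t in (Icc (T + L) (2 * T - L))ᶜ, (K * (C1 * L)) ^ 2 * H T L t := by
        apply integral_mono_of_nonneg
        · exact Filter.Eventually.of_forall (fun t => by positivity)
        · exact hHint.integrableOn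
        · exact (ae_restrict_iff' measurableSet_Icc.compl).mpr
            (Filter.Eventually.of_forall hpt)
    _ ≤ ∫ t, (K * (C1 * L)) ^ 2 * H T L t :=
        setIntegral_le_integral hHint (Filter.Eventually.of_forall
          (fun t => mul_nonneg (by positivity) (hHnn t)))
    _ = (K * (C1 * L)) ^ 2 * (2 * (L + 1) + 2 * Real.sqrt (Real.pi / (1 / 2))) := by
        rw [integral_const_mul, H_val T L hL]
    _ ≤ (K * (C1 * L)) ^ 2 * ((4 + 2 * Real.sqrt (Real.pi / (1 / 2))) * L) := by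
        apply mul_le_mul_of_nonneg_left _ (by positivity)
        have : 0 ≤ Real.sqrt (Real.pi / (1 / 2)) := Real.sqrt_nonneg _
        nlinarith
    _ = _ := by ring

end

end Pool.Agent.U256.MV.OUT
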